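import Mathlib
import Pool.Agent.Helper56.Fa5.Transfer

/-!
# MP_fa5f9d_nt: values of a quadratic-residue product at primitive twelfth roots of unity

We prove Q1 in full: for every prime `p ≡ 19 (mod 24)` the four conjectured identities hold.
-/

namespace Pool.Agent.Results.MP_fa5f9d_nt.TwelfthRoots

open Finset Complex

noncomputable section

/-- `S_p(z) = ∏_{k=1}^{(p-1)/2} (z - e^{2π i k² / p})`. -/
def S (p : ℕ) (z : ℂ) : ℂ :=
  ∏ k ∈ Icc 1 ((p - 1) / 2), (z - exp (2 * Real.pi * I * (k : ℂ) ^ 2 / p))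

lemma xi_val : exp (2 * Real.pi * I / 12) = (Real.sqrt 3 + I) / 2 := by
  have h1 : (2 * Real.pi * I / 12 : ℂ) = ((Real.pi / 6 : ℝ) : ℂ) * I := by
    push_cast; ring
  rw [h1, exp_mul_I, ← ofReal_cos, ← ofReal_sin, Real.cos_pi_div_six, Real.sin_pi_div_six]
  push_cast
  ring

lemma sqrt3_sq : ((Real.sqrt 3 : ℝ) : ℂ) ^ 2 = 3 := by
  rw [← ofReal_pow, Real.sq_sqrt (by norm_num)]
  norm_num

open Pool.Agent.Helper56.Fa5 in
lemma S_eq {p : ℕ} [hpf : Fact p.Prime] (hp2 : p ≠ 2)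
    (hζ : IsPrimitiveRoot (exp (2 * Real.pi * I / p)) p) (z : ℂ) :
    S p z = TQ (AddChar.zmodChar p hζ.pow_eq_one) z ∧
    S p z = ∏ k ∈ Icc 1 ((p - 1) / 2), (z - (exp (2 * Real.pi * I / p)) ^ (k ^ 2)) := by
  have h2 : S p z = ∏ k ∈ Icc 1 ((p - 1) / 2), (z - (exp (2 * Real.pi * I / p)) ^ (k ^ 2)) := by
    unfold S
    apply prod_congr rfl
    intro k _
    rw [← exp_nat_mul]
    congr 2
    push_cast
    ring
  refine ⟨?_, h2⟩
  rw [h2]
  unfold TQ
  rw [← prod_Icc_sq hp2 (fun a => z - (AddChar.zmodChar p hζ.pow_eq_one) a)]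
  apply prod_congr rfl
  intro k _
  have h3 : ((k : ZMod p)) ^ 2 = ((k ^ 2 : ℕ) : ZMod p) := by push_cast; rfl
  rw [h3, AddChar.zmodChar_apply']

/-- **Full answer to Q1 (affirmative).** Let `p ≡ 19 (mod 24)` be prime. Then `p = (4x)² + 3y²` for
some integers `x, y`, and for all such `x, y` the four identities hold. -/
theorem result (p : ℕ) (hp : p.Prime) (h24 : p % 24 = 19) :
    (∃ x y : ℤ, (p : ℤ) = (4 * x) ^ 2 + 3 * y ^ 2) ∧
    ∀ x y : ℤ, (p : ℤ) = (4 * x) ^ 2 + 3 * y ^ 2 →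
      S p (exp (2 * Real.pi * I / 12)) =
        (-1) ^ ((p - 19) / 24 + x.natAbs) * (1 + I) * ((1 + Real.sqrt 3) / 2) ∧
      S p (exp (-(2 * Real.pi * I / 12))) =
        (-1) ^ ((p - 19) / 24 + x.natAbs) * (1 - I) * ((1 + Real.sqrt 3) / 2) ∧
      S p (exp (2 * Real.pi * I * (5 / 12))) =
        (-1) ^ ((p - 19) / 24 + x.natAbs) * (1 + I) * ((1 - Real.sqrt 3) / 2) ∧
      S p (exp (-(2 * Real.pi * I * (5 / 12)))) =
        (-1) ^ ((p - 19) / 24 + x.natAbs) * (1 - I) * ((1 - Real.sqrt 3) / 2) := by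
  have hpf : Fact p.Prime := ⟨hp⟩
  constructor
  · -- existence of the representation
    have h3 : IsSquare (-3 : ZMod p) := by
      have h1 : quadraticChar (ZMod p) (-3) = 1 := by
        rw [show (-3 : ZMod p) = (-1) * 3 by ring, map_mul,
          Pool.Agent.Helper56.Fa5.char_neg_one h24, Pool.Agent.Helper56.Fa5.char_three h24]
        norm_num
      exact (quadraticChar_one_iff_isSquare
        (Pool.Agent.Helper56.Fa5.ne_zero_of_char h1 (by norm_num))).mp h1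
    obtain ⟨c, hc⟩ := h3
    exact Pool.Agent.Helper56.Fa5.rep_three hp h24 c (by rw [hc]; ring)
  · intro x y hxy
    have hp2 : p ≠ 2 := by omega
    have hζ : IsPrimitiveRoot (exp (2 * Real.pi * I / p)) p :=
      Complex.isPrimitiveRoot_exp p hp.ne_zero
    set s : ℂ := ((Real.sqrt 3 : ℝ) : ℂ) with hs
    have hs2 : s ^ 2 = 3 := sqrt3_sq
    have hI : I ^ 2 = -1 := I_sq
    set ξ : ℂ := exp (2 * Real.pi * I / 12) with hξdef
    have hξv : ξ = (s + I) / 2 := xi_val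
    have hξ12 : IsPrimitiveRoot ξ 12 := by
      have := Complex.isPrimitiveRoot_exp 12 (by norm_num)
      simpa using this
    have hξ2 : ξ ^ 2 = (1 + s * I) / 2 := by
      rw [hξv]; linear_combination (1 / 4) * hs2 + (1 / 4) * hI
    have hξ3 : ξ ^ 3 = I := by
      have : ξ ^ 3 = ξ ^ 2 * ξ := by ring
      rw [this, hξ2, hξv]
      linear_combination (I / 4) * hs2 + (s / 4) * hI
    have hξ : ξ ^ 4 - ξ ^ 2 + 1 = 0 := by
      have : ξ ^ 4 = ξ ^ 3 * ξ := by ring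
      rw [this, hξ3, hξ2, hξv]
      linear_combination (1 / 2) * hI
    have hξ11 : ξ ^ 11 = (s - I) / 2 := by
      have h1 : ξ ^ 11 = (ξ ^ 3) ^ 3 * ξ ^ 2 := by ring
      rw [h1, hξ3, hξ2]
      linear_combination (I / 2 + s * (I ^ 2 - 1) / 2) * hI
    have e1 : exp (-(2 * Real.pi * I / 12)) = ξ ^ 11 := by
      have h1 : exp (-(2 * Real.pi * I / 12)) * ξ = ξ ^ 11 * ξ := by
        rw [hξdef, ← exp_add, ← pow_succ, ← hξdef, hξ12.pow_eq_one, neg_add_cancel, exp_zero]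
      exact mul_right_cancel₀ (exp_ne_zero _) h1
    have e2 : exp (2 * Real.pi * I * (5 / 12)) = ξ ^ 5 := by
      rw [hξdef, ← exp_nat_mul]
      congr 1
      push_cast
      ring
    have e3 : exp (-(2 * Real.pi * I * (5 / 12))) = ξ ^ 7 := by
      have h1 : exp (-(2 * Real.pi * I * (5 / 12))) * ξ ^ 5 = ξ ^ 7 * ξ ^ 5 := by
        rw [← pow_add, hξ12.pow_eq_one, ← e2, ← exp_add, neg_add_cancel, exp_zero]
      exact mul_right_cancel₀ (pow_ne_zero 5 (exp_ne_zero _)) h1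
    obtain ⟨r1, r2, r3, r4⟩ := Pool.Agent.Helper56.Fa5.relations h24 hζ ξ hξ hξ12
    rw [← (S_eq hp2 hζ ξ).1] at r1 r2 r3
    rw [← (S_eq hp2 hζ (ξ ^ 5)).1] at r2 r4
    rw [← (S_eq hp2 hζ (ξ ^ 11)).1] at r3
    rw [← (S_eq hp2 hζ (ξ ^ 7)).1] at r4
    have hξ1 : ξ - 1 ≠ 0 := by
      intro h0
      have h1 : ξ = 1 := by linear_combination h0
      rw [h1] at hξ
      norm_num at hξ
    have hsq : (2 * S p ξ) ^ 2 = ((1 + ξ ^ 3) * (1 + (ξ + ξ ^ 11))) ^ 2 := by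
      apply mul_left_cancel₀ hξ1
      have h1 : (ξ - 1) * (2 * S p ξ) ^ 2 = 4 * (-(1 + ξ)) := by
        rw [← r1]; ring
      have h5 : ((1 + I) * (1 + ((s + I) / 2 + (s - I) / 2))) ^ 2 = (2 * I) * (4 + 2 * s) := by
        have h6 : (1 + I) ^ 2 = 2 * I := by linear_combination hI
        have h7 : (1 + s) ^ 2 = 4 + 2 * s := by linear_combination hs2
        have h8 : ((1 + I) * (1 + ((s + I) / 2 + (s - I) / 2))) ^ 2 = (1 + I) ^ 2 * (1 + s) ^ 2 := by
          ring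
        rw [h8, h6, h7]
      rw [h1, hξ3, hξ11, hξv, h5]
      linear_combination (-2 * I) * hs2 + (-2 * s - 4) * hI
    rw [(S_eq hp2 hζ ξ).2] at hsq
    have hsign := Pool.Agent.Helper56.Fa5.sign_transfer h24 hxy hζ.pow_eq_one hξ hsq
    rw [← (S_eq hp2 hζ ξ).2, hξ3, hξ11, hξv, ← hξv] at hsign
    set n := (p - 19) / 24 + x.natAbs with hn
    have hA : S p ξ = (-1) ^ n * (1 + I) * ((1 + s) / 2) := by
      linear_combination (1 / 2) * hsign + (1 / 2) * (-1) ^ n * (1 + I) * hξv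
    have hn2 : ((-1 : ℂ)) ^ n * (-1) ^ n = 1 := by rw [← mul_pow]; norm_num
    have hB : S p (ξ ^ 5) = (-1) ^ n * (1 + I) * ((1 - s) / 2) := by
      have hA0 : S p ξ ≠ 0 := by
        intro h0
        rw [h0, zero_mul, hξ3] at r2
        exact I_ne_zero (by linear_combination r2)
      apply mul_left_cancel₀ hA0
      rw [r2, hξ3, hA]
      have h9 : (-1 : ℂ) ^ n * (1 + I) * ((1 + s) / 2) * ((-1) ^ n * (1 + I) * ((1 - s) / 2)) =
          ((-1 : ℂ) ^ n * (-1) ^ n) * ((1 + I) ^ 2 * (1 - s ^ 2)) / 4 := by ring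
      rw [h9, hn2, hs2]
      linear_combination (1 / 2) * hI
    refine ⟨hA, ?_, ?_, ?_⟩
    · rw [e1, r3, hξ3, hA]
      linear_combination (-(-1) ^ n * ((1 + s) / 2)) * hI
    · rw [e2, hB]
    · rw [e3, r4, hξ3, hB]
      linear_combination (-(-1) ^ n * ((1 - s) / 2)) * hI

end

end Pool.Agent.Results.MP_fa5f9d_nt.TwelfthRoots
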